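import Pool.Agent.Helper34.QT.LandLOf
import Pool.Agent.Helper12.QT.LapF
import Pool.Agent.Helper63.QT.LapL

/-!
Block QTL2: Landau's lemma applied to `C - σ F`, Liouville side.
-/

namespace Pool.Agent.QT

open Real Filter Topology MeasureTheory Set DirichletCharacter

theorem landau_L {q : ℕ} [NeZero q] {χ : DirichletCharacter ℂ q} {a l : ℕ → ℝ} {σ C : ℝ} (h : HypL χ a l σ C) :
    (∀ x : ℝ, 0 < x → Integrable (fun t : ℝ => Real.exp (-(x * t)) * FF l t)) ∧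
      (∀ z : ℂ, 0 < z.re → LFunction χ (1 / 2 + z) ≠ 0 ∧
        ∫ t : ℝ, Complex.exp (-z * t) * (FF l t : ℂ) = ZZ χ z) ∧
      LFunction χ (1 / 2) ≠ 0 ∧
      ∀ x : ℝ, 0 < x → 0 < ∫ t : ℝ, Real.exp (-(x * t)) * FF l t :=
  landau_L_of h (abs_FFl_le h.dat) (measurable_FF l) (fun _ hz => laplace_L h.dat hz)

end Pool.Agent.QT
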