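import Pool.Agent.Helper96.QT.DefL
import Pool.Agent.Helper63.QT.LandAbs

/-!
Block QTL2: Landau's lemma applied to `C - σ F`, Liouville side (after Helper4/QT/LandOf.lean).
-/

namespace Pool.Agent.QT

open Real Filter Topology MeasureTheory Set DirichletCharacter

private lemma EE_diff34 (q : ℕ) [NeZero q] : Differentiable ℂ (EE q) := by
  have h : Differentiable ℂ (fun z : ℂ => LFunctionTrivChar₁ q (1 + 2 * z)) :=
    (differentiable_LFunctionTrivChar₁ q).comp (by fun_prop)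
  exact h.div_const 2

private lemma EE_zero34 (q : ℕ) [NeZero q] : EE q 0 ≠ 0 := by
  unfold EE
  rw [mul_zero, add_zero]
  exact div_ne_zero (LFunctionTrivChar₁_apply_one_ne_zero q) two_ne_zero

private lemma EE_eq34 (q : ℕ) [NeZero q] {z : ℂ} (hz : z ≠ 0) :
    EE q z = z * LFunctionTrivChar q (1 + 2 * z) := by
  have h1 : 1 + 2 * z ≠ 1 := by
    intro h
    apply hz
    have h2 : 2 * z = 0 := by linear_combination h
    simpa using h2
  unfold EE
  rw [LFunctionTrivChar₁, Function.update_of_ne h1]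
  ring

private lemma EE_ne34 (q : ℕ) [NeZero q] {z : ℂ} (hz : 0 < z.re) : EE q z ≠ 0 := by
  have hz0 : z ≠ 0 := by
    rintro rfl
    simp at hz
  rw [EE_eq34 q hz0]
  refine mul_ne_zero hz0 ?_
  refine DirichletCharacter.LFunction_ne_zero_of_one_le_re 1 (Or.inr ?_) ?_
  · intro h
    apply hz0
    have h2 : 2 * z = 0 := by linear_combination h
    simpa using h2
  · simp
    linarith

/-- `L(4, chi_0)` is a positive real number -/
private lemma L4_34 (q : ℕ) [NeZero q] : (LFunctionTrivChar q 4).im = 0 ∧ 0 < (LFunctionTrivChar q 4).re := by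
  have h1 : 1 < (4 : ℂ).re := by norm_num
  have e0 : LFunctionTrivChar q 4 = LSeries (fun n : ℕ => (1 : DirichletCharacter ℂ q) n) 4 :=
    LFunction_eq_LSeries 1 h1
  rw [e0]
  have hs : HasSum (LSeries.term (fun n : ℕ => (1 : DirichletCharacter ℂ q) n) 4)
      (LSeries (fun n : ℕ => (1 : DirichletCharacter ℂ q) n) 4) :=
    (DirichletCharacter.LSeriesSummable_of_one_lt_re 1 h1).hasSum
  have hterm : ∀ n : ℕ, ∃ r : ℝ, 0 ≤ r ∧ LSeries.term (fun n : ℕ => (1 : DirichletCharacter ℂ q) n) 4 n = (r : ℂ) := by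
    intro n
    rcases Nat.eq_zero_or_pos n with rfl | hn
    · exact ⟨0, le_rfl, by simp⟩
    · rw [LSeries.term_of_ne_zero hn.ne']
      have h3 : (n : ℂ) ^ (4 : ℂ) = (((n : ℝ) ^ 4 : ℝ) : ℂ) := by
        rw [show (4 : ℂ) = ((4 : ℕ) : ℂ) by norm_num, Complex.cpow_natCast]
        push_cast
        rfl
      by_cases hu : IsUnit ((n : ℕ) : ZMod q)
      · refine ⟨1 / (n : ℝ) ^ 4, by positivity, ?_⟩
        rw [h3, MulChar.one_apply hu]
        push_cast
        rfl
      · refine ⟨0, le_rfl, ?_⟩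
        rw [MulChar.map_nonunit _ hu]
        simp
  constructor
  · have hi := Complex.hasSum_im hs
    have : (fun n : ℕ => (LSeries.term (fun n : ℕ => (1 : DirichletCharacter ℂ q) n) 4 n).im) = fun _ => 0 := by
      funext n
      obtain ⟨r, -, hr⟩ := hterm n
      rw [hr, Complex.ofReal_im]
    rw [this] at hi
    exact (hi.unique hasSum_zero)
  · have hr := Complex.hasSum_re hs
    have h5 : (LSeries.term (fun n : ℕ => (1 : DirichletCharacter ℂ q) n) 4 1).re ≤
        (LSeries (fun n : ℕ => (1 : DirichletCharacter ℂ q) n) 4).re := by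
      refine le_hasSum hr 1 fun n _ => ?_
      obtain ⟨r, h0, hr⟩ := hterm n
      rw [hr, Complex.ofReal_re]
      exact h0
    have h6 : LSeries.term (fun n : ℕ => (1 : DirichletCharacter ℂ q) n) 4 1 = 1 := by
      rw [LSeries.term_of_ne_zero one_ne_zero]
      simp
    rw [h6, Complex.one_re] at h5
    linarith

/-- `EE (3/2)` is a positive real number -/
private lemma EE32_34 (q : ℕ) [NeZero q] : ∃ e : ℝ, 0 < e ∧ EE q ((3 / 2 : ℝ) : ℂ) = (e : ℂ) := by
  obtain ⟨h1, h2⟩ := L4_34 q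
  refine ⟨3 / 2 * (LFunctionTrivChar q 4).re, by positivity, ?_⟩
  rw [EE_eq34 q (by norm_num)]
  have e1 : 1 + 2 * (((3 / 2 : ℝ)) : ℂ) = 4 := by
    push_cast
    norm_num
  rw [e1]
  have e2 : LFunctionTrivChar q 4 = (((LFunctionTrivChar q 4).re : ℝ) : ℂ) := Complex.ext (by simp) (by simpa using h1)
  rw [e2]
  push_cast
  simp

/-- `re L(2, chi) > 0` -/
private lemma L2_re_pos_h34 {q : ℕ} [NeZero q] (χ : DirichletCharacter ℂ q) : 0 < (LFunction χ 2).re := by
  have h1 : 1 < (2 : ℂ).re := by norm_num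
  rw [LFunction_eq_LSeries χ h1]
  have hs : HasSum (LSeries.term (fun n : ℕ => χ n) 2) (LSeries (fun n : ℕ => χ n) 2) :=
    (DirichletCharacter.LSeriesSummable_of_one_lt_re χ h1).hasSum
  have hr : HasSum (fun n : ℕ => (LSeries.term (fun n : ℕ => χ n) 2 n).re) (LSeries (fun n : ℕ => χ n) 2).re :=
    Complex.hasSum_re hs
  have h2 := hr.add hasSum_zeta_two
  have hb : ∀ n : ℕ, |(LSeries.term (fun n : ℕ => χ n) 2 n).re| ≤ 1 / (n : ℝ) ^ 2 := by
    intro n
    refine (Complex.abs_re_le_norm _).trans ?_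
    rcases Nat.eq_zero_or_pos n with rfl | hn
    · simp
    · rw [LSeries.term_of_ne_zero hn.ne', norm_div]
      have h3 : ‖(n : ℂ) ^ (2 : ℂ)‖ = (n : ℝ) ^ 2 := by
        rw [show (2 : ℂ) = ((2 : ℕ) : ℂ) by norm_num, Complex.cpow_natCast, norm_pow, Complex.norm_natCast]
      rw [h3]
      have h4 : ‖χ (n : ZMod q)‖ ≤ 1 := χ.norm_le_one _
      gcongr
  have h5 : (LSeries.term (fun n : ℕ => χ n) 2 1).re + 1 / ((1 : ℕ) : ℝ) ^ 2 ≤
      (LSeries (fun n : ℕ => χ n) 2).re + π ^ 2 / 6 := by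
    refine le_hasSum h2 1 fun n _ => ?_
    have := neg_le_of_abs_le (hb n)
    linarith
  have h6 : LSeries.term (fun n : ℕ => χ n) 2 1 = 1 := by
    rw [LSeries.term_of_ne_zero one_ne_zero]
    simp
  rw [h6] at h5
  have h7 : π < 3.15 := Real.pi_lt_d2
  have h8 : 0 < π := Real.pi_pos
  have h9 : π ^ 2 < 10 := by nlinarith
  simp at h5
  linarith

private lemma ZZ_pos34 {q : ℕ} [NeZero q] {χ : DirichletCharacter ℂ q} (hχ : χ ≠ 1) {a₀ : ℝ} (ha₀ : 0 ≤ a₀) (ha₁ : a₀ < 3 / 2)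
    (hne : ∀ x : ℝ, a₀ < x → LFunction χ (1 / 2 + x) ≠ 0) (him : ∀ x : ℝ, a₀ < x → (ZZ χ x).im = 0) :
    ∀ x : ℝ, a₀ < x → 0 < (ZZ χ x).re := by
  have hL : Continuous (fun x : ℝ => LFunction χ (1 / 2 + x)) :=
    (DirichletCharacter.differentiable_LFunction hχ).continuous.comp (by fun_prop)
  have hE : Continuous (fun x : ℝ => EE q x) := (EE_diff34 q).continuous.comp Complex.continuous_ofReal
  have hden : ∀ x : ℝ, a₀ < x → (x : ℂ) * ((1 / 2 + (x : ℂ)) * LFunction χ (1 / 2 + x)) ≠ 0 := by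
    intro x hx
    refine mul_ne_zero ?_ (mul_ne_zero ?_ (hne x hx))
    · exact_mod_cast (lt_of_le_of_lt ha₀ hx).ne'
    intro h
    have := congrArg Complex.re h
    simp at this
    linarith
  have hc : ContinuousOn (fun x : ℝ => (ZZ χ x).re) (Ioi a₀) := by
    refine Complex.continuous_re.comp_continuousOn ?_
    unfold ZZ
    refine ContinuousOn.div hE.continuousOn (by fun_prop) fun x hx => hden x hx
  have hn0 : ∀ x : ℝ, a₀ < x → (ZZ χ x).re ≠ 0 := by
    intro x hx h0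
    have : ZZ χ x = 0 := Complex.ext h0 (him x hx)
    unfold ZZ at this
    refine div_ne_zero (EE_ne34 q ?_) (hden x hx) this
    simpa using lt_of_le_of_lt ha₀ hx
  have h32 : 0 < (ZZ χ ((3 / 2 : ℝ) : ℂ)).re := by
    obtain ⟨e, he, he'⟩ := EE32_34 q
    unfold ZZ
    have h1 : (1 / 2 + ((3 / 2 : ℝ) : ℂ)) = 2 := by push_cast; norm_num
    rw [he', h1]
    have h3 := L2_re_pos_h34 χ
    have h4 : ((3 / 2 : ℝ) : ℂ) * (2 * LFunction χ 2) = ((3 : ℝ) : ℂ) * LFunction χ 2 := by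
      push_cast
      ring
    rw [h4, ← div_div, ← Complex.ofReal_div, div_eq_mul_inv, Complex.re_ofReal_mul, Complex.inv_re]
    refine mul_pos (by positivity) (div_pos h3 ?_)
    rw [Complex.normSq_pos]
    intro h
    rw [h] at h3
    simp at h3
  intro x hx
  by_contra hneg
  rw [not_lt] at hneg
  have hsub : uIcc x (3 / 2) ⊆ Ioi a₀ := by
    intro y hy
    rw [mem_uIcc] at hy
    rcases hy with hy | hy
    · exact lt_of_lt_of_le hx hy.1
    · exact lt_of_lt_of_le ha₁ hy.1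
  have h1 := intermediate_value_uIcc (hc.mono hsub)
  have h2 : (0 : ℝ) ∈ uIcc ((ZZ χ x).re) ((ZZ χ ((3 / 2 : ℝ) : ℂ)).re) := by
    rw [mem_uIcc]
    exact Or.inl ⟨hneg, h32.le⟩
  obtain ⟨y, hy, hy0⟩ := h1 h2
  exact hn0 y (hsub hy) hy0

private lemma intg_cplx_h34 {f : ℝ → ℝ} (hf : Measurable f) {z : ℂ}
    (h : Integrable (fun t : ℝ => Real.exp (-(z.re * t)) * f t)) :
    Integrable (fun t : ℝ => Complex.exp (-z * t) * (f t : ℂ)) := by
  refine h.norm.mono' ?_ (ae_of_all _ fun t => ?_)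
  · have h1 : Continuous fun t : ℝ => Complex.exp (-z * t) := by fun_prop
    exact h1.aestronglyMeasurable.mul (Complex.measurable_ofReal.comp hf).aestronglyMeasurable
  · rw [norm_mul, norm_mul, Complex.norm_real, Complex.norm_exp, Real.norm_of_nonneg (Real.exp_pos _).le]
    simp

private lemma int_real_h34 (f : ℝ → ℝ) (x : ℝ) :
    ∫ t : ℝ, Complex.exp (-(x : ℂ) * t) * (f t : ℂ) = ((∫ t : ℝ, Real.exp (-(x * t)) * f t : ℝ) : ℂ) := by
  rw [← integral_complex_ofReal]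
  refine integral_congr_ae (ae_of_all _ fun t => ?_)
  simp

/-- the step function -/
private noncomputable def stp_h34 (C t : ℝ) : ℝ := if 0 ≤ t then C else 0

private lemma stp_meas_h34 (C : ℝ) : Measurable (stp_h34 C) :=
  Measurable.ite measurableSet_Ici measurable_const measurable_const

private lemma stp_intg_h34 (C : ℝ) {x : ℝ} (hx : 0 < x) : Integrable (fun t : ℝ => Real.exp (-(x * t)) * stp_h34 C t) := by
  have h1 : IntegrableOn (fun t : ℝ => Real.exp (-x * t) * C) (Ioi 0) :=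
    (integrableOn_exp_mul_Ioi (by linarith : -x < 0) 0).mul_const C
  rw [← integrableOn_Ici_iff_integrableOn_Ioi, ← integrable_indicator_iff measurableSet_Ici] at h1
  refine h1.congr (ae_of_all _ fun t => ?_)
  unfold stp_h34
  by_cases ht : 0 ≤ t
  · simp [indicator, ht]
  · simp [indicator, ht]

private lemma stp_int_h34 (C : ℝ) {z : ℂ} (hz : 0 < z.re) :
    ∫ t : ℝ, Complex.exp (-z * t) * (stp_h34 C t : ℂ) = C / z := by
  have h1 : (fun t : ℝ => Complex.exp (-z * t) * (stp_h34 C t : ℂ)) =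
      indicator (Ici 0) (fun t : ℝ => Complex.exp (-z * t) * (C : ℂ)) := by
    funext t
    unfold stp_h34
    by_cases ht : 0 ≤ t
    · simp [indicator, ht]
    · simp [indicator, ht]
  rw [h1, integral_indicator measurableSet_Ici, integral_Ici_eq_integral_Ioi, integral_mul_const,
    integral_exp_mul_complex_Ioi (by simpa using hz : (-z).re < 0)]
  have hz0 : z ≠ 0 := by
    rintro rfl
    simp at hz
  simp
  field_simp

theorem landau_L_of {q : ℕ} [NeZero q] {χ : DirichletCharacter ℂ q} {a₁ a : ℕ → ℝ} {σ C : ℝ} (h : HypL χ a₁ a σ C)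
    (H1 : ∀ t : ℝ, |FF a t| ≤ Real.exp (t / 2)) (H2 : Measurable (FF a))
    (H3 : ∀ z : ℂ, 1 / 2 < z.re → Integrable (fun t : ℝ => Complex.exp (-z * t) * (FF a t : ℂ)) ∧
      ∫ t : ℝ, Complex.exp (-z * t) * (FF a t : ℂ) = ZZ χ z) :
    (∀ x : ℝ, 0 < x → Integrable (fun t : ℝ => Real.exp (-(x * t)) * FF a t)) ∧
      (∀ z : ℂ, 0 < z.re → LFunction χ (1 / 2 + z) ≠ 0 ∧
        ∫ t : ℝ, Complex.exp (-z * t) * (FF a t : ℂ) = ZZ χ z) ∧
      LFunction χ (1 / 2) ≠ 0 ∧
      ∀ x : ℝ, 0 < x → 0 < ∫ t : ℝ, Real.exp (-(x * t)) * FF a t := by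
  obtain ⟨hd, hsg, hzf, t₀, ht₀⟩ := h
  have hχ : χ ≠ 1 := hd.dat.ne
  have hσ2 : σ * σ = 1 := by rcases hsg with rfl | rfl <;> norm_num
  have hσabs : |σ| = 1 := by rcases hsg with rfl | rfl <;> norm_num
  have hσ2c : (σ : ℂ) * σ = 1 := by exact_mod_cast hσ2
  -- the function Φ
  set Φ : ℝ → ℝ := fun t => stp_h34 C t - σ * FF a t with hΦ
  have hFF0 : ∀ t < 0, FF a t = 0 := fun t ht => by simp [FF, not_le.2 ht]
  have hΦm : Measurable Φ := (stp_meas_h34 C).sub (H2.const_mul σ)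
  have hΦ0 : ∀ t < 0, Φ t = 0 := fun t ht => by simp [hΦ, stp_h34, not_le.2 ht, hFF0 t ht]
  set t₁ : ℝ := max t₀ 0 with ht₁
  have hΦpos : ∀ t, t₁ ≤ t → 0 ≤ Φ t := by
    intro t ht
    have h1 : t₀ ≤ t := (le_max_left _ _).trans ht
    have h2 : 0 ≤ t := (le_max_right _ _).trans ht
    simp only [hΦ, stp_h34, h2, if_true]
    linarith [ht₀ t h1]
  have hΦA : ∀ t, |Φ t| ≤ (|C| + 1) * Real.exp (t / 2) := by
    intro t
    by_cases ht : 0 ≤ t
    · simp only [hΦ, stp_h34, ht, if_true]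
      have h1 : |σ * FF a t| ≤ Real.exp (t / 2) := by rw [abs_mul, hσabs, one_mul]; exact H1 t
      have h2 : 1 ≤ Real.exp (t / 2) := Real.one_le_exp (by linarith)
      have h3 : |C - σ * FF a t| ≤ |C| + |σ * FF a t| := abs_sub _ _
      nlinarith [abs_nonneg C]
    · rw [hΦ0 t (not_le.1 ht)]
      simp
      positivity
  set P : ℂ → ℂ := fun z => z * ((1 / 2 + z) * LFunction χ (1 / 2 + z)) with hP
  set Q : ℂ → ℂ := fun z => C * ((1 / 2 + z) * LFunction χ (1 / 2 + z)) - σ * EE q z with hQ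
  have hLd : Differentiable ℂ (fun z : ℂ => LFunction χ (1 / 2 + z)) :=
    (DirichletCharacter.differentiable_LFunction hχ).comp (by fun_prop)
  have hPd : Differentiable ℂ P := differentiable_id.mul (((differentiable_const _).add differentiable_id).mul hLd)
  have hQd : Differentiable ℂ Q :=
    ((((differentiable_const _).add differentiable_id).mul hLd).const_mul _).sub ((EE_diff34 q).const_mul _)
  have hone : ∀ z : ℂ, 1 / 2 ≤ z.re → LFunction χ (1 / 2 + z) ≠ 0 := by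
    intro z hz
    refine DirichletCharacter.LFunction_ne_zero_of_one_le_re χ (Or.inl hχ) ?_
    simp
    linarith
  have hhalf : ∀ z : ℂ, 0 < z.re → (1 / 2 + z) ≠ 0 := by
    intro z hz h0
    have := congrArg Complex.re h0
    simp at this
    linarith
  have hne0 : ∀ z : ℂ, 0 < z.re → z ≠ 0 := by
    rintro z hz rfl
    simp at hz
  -- value of Q / P
  have hQP : ∀ z : ℂ, 0 < z.re → LFunction χ (1 / 2 + z) ≠ 0 → Q z / P z = C / z - σ * ZZ χ z := by
    intro z hz hL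
    have h1 := hhalf z hz
    have h2 := hne0 z hz
    have h3 : (1 / 2 + z) * LFunction χ (1 / 2 + z) ≠ 0 := mul_ne_zero h1 hL
    simp only [hP, hQ, ZZ]
    generalize (1 / 2 + z) * LFunction χ (1 / 2 + z) = w at h3 ⊢
    field_simp
  have hsub : ∀ z : ℂ, 0 < z.re → Integrable (fun t : ℝ => Complex.exp (-z * t) * (FF a t : ℂ)) →
      ∫ t : ℝ, Complex.exp (-z * t) * (Φ t : ℂ) = C / z - σ * ∫ t : ℝ, Complex.exp (-z * t) * (FF a t : ℂ) := by
    intro z hz hi
    have h1 : (fun t : ℝ => Complex.exp (-z * t) * (Φ t : ℂ)) =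
        fun t : ℝ => Complex.exp (-z * t) * (stp_h34 C t : ℂ) - σ * (Complex.exp (-z * t) * (FF a t : ℂ)) := by
      funext t
      simp only [hΦ]
      push_cast
      ring
    rw [h1, integral_sub (intg_cplx_h34 (stp_meas_h34 C) (stp_intg_h34 C hz)) (hi.const_mul _), stp_int_h34 C hz,
      integral_const_mul]
  have hPQ : ∀ z : ℂ, 1 / 2 < z.re → (∫ t : ℝ, Complex.exp (-z * t) * (Φ t : ℂ)) * P z = Q z := by
    intro z hz
    obtain ⟨h1, h2⟩ := H3 z hz
    have hz0 : 0 < z.re := by linarith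
    have hL := hone z hz.le
    rw [hsub z hz0 h1, h2, ← hQP z hz0 hL, div_mul_cancel₀]
    exact mul_ne_zero (hne0 z hz0) (mul_ne_zero (hhalf z hz0) hL)
  have hzero : ∀ z : ℂ, 0 < z.re → P z = 0 → Q z ≠ 0 := by
    intro z hz h0
    have h1 : (1 / 2 + z) * LFunction χ (1 / 2 + z) = 0 := by
      simpa [hP, hne0 z hz] using h0
    simp only [hQ, h1, mul_zero, zero_sub, neg_ne_zero]
    refine mul_ne_zero ?_ (EE_ne34 q hz)
    intro h2
    rw [h2] at hσ2c
    simp at hσ2c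
  have H4' : ∀ a₀ : ℝ, 0 ≤ a₀ → (∀ x : ℝ, a₀ < x → P x ≠ 0) →
      (∀ x : ℝ, a₀ < x → Integrable (fun t : ℝ => Real.exp (-(x * t)) * Φ t)) ∧
        ∀ z : ℂ, a₀ < z.re → P z ≠ 0 ∧ ∫ t : ℝ, Complex.exp (-z * t) * (Φ t : ℂ) = Q z / P z :=
    fun a₀ h0 h1 => landau_abs hΦm hΦ0 hΦpos hΦA hPd hQd hPQ hzero h0 h1
  -- lower bound for the integral
  set bd : ℝ → ℝ := indicator (Icc 0 t₁) (fun t => (|C| + 1) * Real.exp (t / 2)) with hbd
  have hbdi : Integrable bd := by
    rw [hbd, integrable_indicator_iff measurableSet_Icc]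
    exact Continuous.integrableOn_Icc (by fun_prop)
  have hlow : ∀ x : ℝ, 0 < x → Integrable (fun t : ℝ => Real.exp (-(x * t)) * Φ t) →
      -(∫ t : ℝ, bd t) ≤ ∫ t : ℝ, Real.exp (-(x * t)) * Φ t := by
    intro x hx0 hi
    rw [← integral_neg]
    refine integral_mono hbdi.neg hi fun t => ?_
    simp only [hbd]
    by_cases ht : 0 ≤ t
    · by_cases ht' : t ≤ t₁
      · rw [indicator_of_mem (show t ∈ Icc 0 t₁ from ⟨ht, ht'⟩)]
        have h5 : Real.exp (-(x * t)) ≤ 1 := Real.exp_le_one_iff.2 (by nlinarith)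
        have h6 := hΦA t
        have h7 := neg_abs_le (Φ t)
        have h8 : 0 < Real.exp (-(x * t)) := Real.exp_pos _
        nlinarith [abs_nonneg (Φ t)]
      · rw [indicator_of_notMem (fun hm => ht' hm.2), neg_zero]
        exact mul_nonneg (Real.exp_pos _).le (hΦpos t (not_le.1 ht').le)
    · rw [indicator_of_notMem (fun hm => ht hm.1), neg_zero, hΦ0 t (not_le.1 ht), mul_zero]
  -- no real zero
  have hreal : ∀ x : ℝ, 0 < x → LFunction χ (1 / 2 + x) ≠ 0 := by
    rcases hsg with hs | hs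
    · intro x₁ hx₁ hx₁0
      have hx₁h : x₁ < 1 / 2 := by
        by_contra hcon
        exact hone (x₁ : ℂ) (by simpa using not_lt.1 hcon) hx₁0
      have hLc : Continuous (fun x : ℝ => LFunction χ (1 / 2 + x)) := hLd.continuous.comp Complex.continuous_ofReal
      have hcomp : IsCompact (Icc x₁ (1 / 2) ∩ {x : ℝ | LFunction χ (1 / 2 + x) = 0}) :=
        isCompact_Icc.inter_right (isClosed_eq hLc continuous_const)
      obtain ⟨a₀, ha₀⟩ := hcomp.exists_isGreatest ⟨x₁, ⟨le_refl _, hx₁h.le⟩, hx₁0⟩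
      have ha₀0 : LFunction χ (1 / 2 + a₀) = 0 := ha₀.1.2
      have ha₀p : 0 < a₀ := lt_of_lt_of_le hx₁ ha₀.1.1.1
      have hgt : ∀ x : ℝ, a₀ < x → LFunction χ (1 / 2 + x) ≠ 0 := by
        intro x hx hx0
        by_cases hxh : x ≤ 1 / 2
        · exact absurd (ha₀.2 ⟨⟨ha₀.1.1.1.trans hx.le, hxh⟩, hx0⟩) (not_le.2 hx)
        · exact hone (x : ℂ) (by simpa using (not_le.1 hxh).le) hx0
      have hPx : ∀ x : ℝ, a₀ < x → P x ≠ 0 := by
        intro x hx
        have hxp : 0 < (x : ℂ).re := by simpa using ha₀p.trans hx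
        exact mul_ne_zero (hne0 _ hxp) (mul_ne_zero (hhalf _ hxp) (hgt x hx))
      obtain ⟨h1, h2⟩ := H4' a₀ ha₀p.le hPx
      have hval : ∀ x : ℝ, a₀ < x → ((∫ t : ℝ, Real.exp (-(x * t)) * Φ t : ℝ) : ℂ) = C / x - ZZ χ x := by
        intro x hx
        have hxp : 0 < (x : ℂ).re := by simpa using ha₀p.trans hx
        have h3 := (h2 (x : ℂ) (by simpa using hx)).2
        rw [int_real_h34, hQP _ hxp (hgt x hx), hs] at h3
        simpa using h3
      have hGr : ∀ x : ℝ, a₀ < x → ZZ χ x = ((C / x - ∫ t : ℝ, Real.exp (-(x * t)) * Φ t : ℝ) : ℂ) := by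
        intro x hx
        have h3 := hval x hx
        push_cast at h3 ⊢
        rw [h3]
        ring
      have him : ∀ x : ℝ, a₀ < x → (ZZ χ x).im = 0 := by
        intro x hx
        rw [hGr x hx]
        exact Complex.ofReal_im _
      have hpos := ZZ_pos34 hχ ha₀p.le (by linarith [ha₀.1.1.2]) hgt him
      set K : ℝ := |C| / a₀ + ∫ t : ℝ, bd t with hK
      have hle : ∀ x : ℝ, a₀ < x → ‖ZZ χ x‖ ≤ K := by
        intro x hx
        have h3 := hpos x hx
        have hx0 : 0 < x := ha₀p.trans hx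
        have h4 := hlow x hx0 (h1 x hx)
        rw [hGr x hx] at h3 ⊢
        rw [Complex.ofReal_re] at h3
        rw [Complex.norm_real, Real.norm_of_nonneg h3.le]
        have h5 : C / x ≤ |C| / a₀ := by
          calc C / x ≤ |C| / x := by gcongr; exact le_abs_self C
            _ ≤ |C| / a₀ := by gcongr
        linarith
      have hmul : ∀ x : ℝ, a₀ < x → ‖EE q x‖ ≤ K * ‖(x : ℂ) * ((1 / 2 + (x : ℂ)) * LFunction χ (1 / 2 + x))‖ := by
        intro x hx
        have hxp : 0 < (x : ℂ).re := by simpa using ha₀p.trans hx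
        have h3 : (x : ℂ) * ((1 / 2 + (x : ℂ)) * LFunction χ (1 / 2 + x)) ≠ 0 :=
          mul_ne_zero (hne0 _ hxp) (mul_ne_zero (hhalf _ hxp) (hgt x hx))
        have h4 : ‖EE q x‖ = ‖ZZ χ x‖ * ‖(x : ℂ) * ((1 / 2 + (x : ℂ)) * LFunction χ (1 / 2 + x))‖ := by
          rw [← norm_mul, ZZ, div_mul_cancel₀ _ h3]
        rw [h4]
        exact mul_le_mul_of_nonneg_right (hle x hx) (norm_nonneg _)
      have hcont : Continuous (fun x : ℝ => K * ‖(x : ℂ) * ((1 / 2 + (x : ℂ)) * LFunction χ (1 / 2 + x))‖) := by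
        fun_prop
      have hlim : Tendsto (fun x : ℝ => K * ‖(x : ℂ) * ((1 / 2 + (x : ℂ)) * LFunction χ (1 / 2 + x))‖) (𝓝[>] a₀) (𝓝 0) := by
        have h3 := (hcont.tendsto a₀).mono_left (nhdsWithin_le_nhds (s := Ioi a₀))
        rw [ha₀0] at h3
        simpa using h3
      have hEc : Continuous (fun x : ℝ => ‖EE q x‖) :=
        ((EE_diff34 q).continuous.comp Complex.continuous_ofReal).norm
      have hlimE : Tendsto (fun x : ℝ => ‖EE q x‖) (𝓝[>] a₀) (𝓝 ‖EE q a₀‖) :=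
        (hEc.tendsto a₀).mono_left (nhdsWithin_le_nhds (s := Ioi a₀))
      have h9 : ‖EE q a₀‖ ≤ 0 :=
        le_of_tendsto_of_tendsto hlimE hlim (eventually_of_mem self_mem_nhdsWithin fun x hx => hmul x hx)
      exact EE_ne34 q (by simpa using ha₀p) (norm_le_zero_iff.1 h9)
    · intro x hx
      by_cases hxh : 1 / 2 ≤ x
      · exact hone (x : ℂ) (by simpa using hxh)
      · have h1 := hzf hs (1 / 2 + x) (by linarith) (by linarith)
        push_cast at h1
        exact h1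
  have hPx : ∀ x : ℝ, 0 < x → P x ≠ 0 := by
    intro x hx
    have hxp : 0 < (x : ℂ).re := by simpa using hx
    exact mul_ne_zero (hne0 _ hxp) (mul_ne_zero (hhalf _ hxp) (hreal x hx))
  obtain ⟨h1, h2⟩ := H4' 0 le_rfl hPx
  have hFΦ : ∀ t, FF a t = σ * (stp_h34 C t - Φ t) := by
    intro t
    simp only [hΦ, sub_sub_cancel]
    rw [← mul_assoc, hσ2, one_mul]
  have hFi : ∀ x : ℝ, 0 < x → Integrable (fun t : ℝ => Real.exp (-(x * t)) * FF a t) := by
    intro x hx
    have h3 := ((stp_intg_h34 C hx).sub (h1 x hx)).const_mul σ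
    refine h3.congr (ae_of_all _ fun t => ?_)
    simp only [Pi.sub_apply]
    rw [hFΦ t]
    ring
  have hFc : ∀ z : ℂ, 0 < z.re → LFunction χ (1 / 2 + z) ≠ 0 ∧
      ∫ t : ℝ, Complex.exp (-z * t) * (FF a t : ℂ) = ZZ χ z := by
    intro z hz
    obtain ⟨h3, h4⟩ := h2 z hz
    have hL : LFunction χ (1 / 2 + z) ≠ 0 := by
      intro h0
      apply h3
      simp only [hP]
      rw [h0, mul_zero, mul_zero]
    refine ⟨hL, ?_⟩
    rw [hsub z hz (intg_cplx_h34 H2 (hFi z.re hz)), hQP z hz hL] at h4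
    have h5 : (σ : ℂ) * ∫ t : ℝ, Complex.exp (-z * t) * (FF a t : ℂ) = σ * ZZ χ z := sub_right_injective h4
    have h6 : (σ : ℂ) ≠ 0 := by
      intro h0
      rw [h0] at hσ2c
      simp at hσ2c
    exact mul_left_cancel₀ h6 h5
  have hG : ∀ x : ℝ, 0 < x → ZZ χ x = ((∫ t : ℝ, Real.exp (-(x * t)) * FF a t : ℝ) : ℂ) := by
    intro x hx
    rw [← (hFc (x : ℂ) (by simpa using hx)).2, int_real_h34]
  have hZpos : ∀ x : ℝ, 0 < x → 0 < ∫ t : ℝ, Real.exp (-(x * t)) * FF a t := by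
    intro x hx
    have h3 := ZZ_pos34 hχ le_rfl (by norm_num) hreal (fun y hy => by rw [hG y hy]; exact Complex.ofReal_im _) x hx
    rw [hG x hx, Complex.ofReal_re] at h3
    exact h3
  refine ⟨hFi, hFc, ?_, hZpos⟩
  rcases hsg with hs | hs
  · intro h0
    have hval : ∀ x : ℝ, 0 < x → (∫ t : ℝ, Real.exp (-(x * t)) * Φ t) =
        C / x - ∫ t : ℝ, Real.exp (-(x * t)) * FF a t := by
      intro x hx
      have h4 : (∫ t : ℝ, Complex.exp (-(x : ℂ) * t) * (Φ t : ℂ)) = _ :=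
        hsub (x : ℂ) (by simpa using hx) (intg_cplx_h34 H2 (hFi x hx))
      rw [int_real_h34, int_real_h34, hs, Complex.ofReal_one, one_mul] at h4
      exact_mod_cast h4
    have hmul : ∀ x : ℝ, 0 < x → ‖EE q x‖ ≤ (|C| + (∫ t : ℝ, bd t) * x) *
        ‖(1 / 2 + (x : ℂ)) * LFunction χ (1 / 2 + x)‖ := by
      intro x hx
      have hxp : 0 < (x : ℂ).re := by simpa using hx
      have h3 : (x : ℂ) * ((1 / 2 + (x : ℂ)) * LFunction χ (1 / 2 + x)) ≠ 0 :=
        mul_ne_zero (hne0 _ hxp) (mul_ne_zero (hhalf _ hxp) (hreal x hx))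
      have h4 : ‖EE q x‖ = ‖ZZ χ x‖ * ‖(x : ℂ) * ((1 / 2 + (x : ℂ)) * LFunction χ (1 / 2 + x))‖ := by
        rw [← norm_mul, ZZ, div_mul_cancel₀ _ h3]
      rw [h4, norm_mul (x : ℂ), ← mul_assoc]
      refine mul_le_mul_of_nonneg_right ?_ (norm_nonneg _)
      rw [hG x hx, Complex.norm_real, Complex.norm_real, Real.norm_of_nonneg (hZpos x hx).le,
        Real.norm_of_nonneg hx.le]
      have h5 := hlow x hx (h1 x hx)
      rw [hval x hx] at h5
      have h6 : ∫ t : ℝ, Real.exp (-(x * t)) * FF a t ≤ C / x + ∫ t : ℝ, bd t := by linarith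
      calc (∫ t : ℝ, Real.exp (-(x * t)) * FF a t) * x ≤ (C / x + ∫ t : ℝ, bd t) * x :=
            mul_le_mul_of_nonneg_right h6 hx.le
        _ = C + (∫ t : ℝ, bd t) * x := by
            rw [add_mul, div_mul_cancel₀ _ hx.ne']
        _ ≤ |C| + (∫ t : ℝ, bd t) * x := by linarith [le_abs_self C]
    have hcont : Continuous (fun x : ℝ => (|C| + (∫ t : ℝ, bd t) * x) *
        ‖(1 / 2 + (x : ℂ)) * LFunction χ (1 / 2 + x)‖) := by
      have hLc : Continuous (fun x : ℝ => LFunction χ (1 / 2 + x)) := hLd.continuous.comp Complex.continuous_ofReal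
      fun_prop
    have hlim : Tendsto (fun x : ℝ => (|C| + (∫ t : ℝ, bd t) * x) *
        ‖(1 / 2 + (x : ℂ)) * LFunction χ (1 / 2 + x)‖) (𝓝[>] 0) (𝓝 0) := by
      have h3 := (hcont.tendsto 0).mono_left (nhdsWithin_le_nhds (s := Ioi 0))
      rw [Complex.ofReal_zero, add_zero, h0] at h3
      simpa using h3
    have hEc : Continuous (fun x : ℝ => ‖EE q x‖) :=
      ((EE_diff34 q).continuous.comp Complex.continuous_ofReal).norm
    have hlimE : Tendsto (fun x : ℝ => ‖EE q x‖) (𝓝[>] 0) (𝓝 ‖EE q 0‖) := by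
      have h3 := (hEc.tendsto 0).mono_left (nhdsWithin_le_nhds (s := Ioi 0))
      rw [Complex.ofReal_zero] at h3
      exact h3
    have h9 : ‖EE q 0‖ ≤ 0 :=
      le_of_tendsto_of_tendsto hlimE hlim (eventually_of_mem self_mem_nhdsWithin fun x hx => hmul x hx)
    exact EE_zero34 q (norm_le_zero_iff.1 h9)
  · have h3 := hzf hs (1 / 2) le_rfl (by norm_num)
    push_cast at h3
    exact h3

end Pool.Agent.QT
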